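import Pool.Agent.Work.MP_6af739_lc.Final

/-!
A predictor-corrector interior-point method solves `max c·x, A x ≤ b` with Gaussian perturbed `A`
in `m^(1/4) ((m/n) log m)^κ` expected iterations, up to a factor depending on `|A₀|_F / σ`.
-/

namespace Pool.Agent.Results.MP_6af739_lc.QuarterPower

open MeasureTheory ProbabilityTheory Pool.Agent.Work.MP_6af739_lc
open scoped ENNReal

theorem result : ∃ (C : ℝ) (κ : ℕ), ∀ (m n : ℕ), 1 ≤ n → C * n ≤ m →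
    ∀ e : ℕ → Finset (Fin m), (∀ B : Finset (Fin m), B.card = n → ∃ i < m.choose n, e i = B) →
    ∀ (A₀ : Matrix (Fin m) (Fin n) ℝ) (b : Fin m → ℝ) (c : Fin n → ℝ) (σ β : ℝ),
    0 < σ → 0 < β → (∀ j, β ≤ b j ∧ b j ≤ 3 * β) → c ≠ 0 →
    ∃ T : (Fin m → Fin n → ℝ) → ℝ≥0∞, Measurable T ∧
      (∀ᵐ G ∂(Measure.pi fun _ : Fin m => Measure.pi fun _ : Fin n => gaussianReal 0 1),
        (∀ i j, 0 < slack (A₀ + σ • Matrix.of G) b (iter (A₀ + σ • Matrix.of G) b c i).2 j ∧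
          0 < slack (A₀ + σ • Matrix.of G) b
            (predict (A₀ + σ • Matrix.of G) b c (iter (A₀ + σ • Matrix.of G) b c i)).2 j) ∧
        Correct (A₀ + σ • Matrix.of G) b c (output (A₀ + σ • Matrix.of G) b c e) ∧
        (stopTime (A₀ + σ • Matrix.of G) b c e : ℝ≥0∞) + 1 ≤ T G) ∧
      ∫⁻ G, T G ∂(Measure.pi fun _ : Fin m => Measure.pi fun _ : Fin n => gaussianReal 0 1) ≤
        ENNReal.ofReal (Real.exp ((√(∑ j, ∑ i, A₀ j i ^ 2) / σ) ^ 2 / 2 +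
            √(∑ j, ∑ i, A₀ j i ^ 2) / σ * √(Real.log m)) *
          (m : ℝ) ^ (1 / 4 : ℝ) * ((m : ℝ) / n * Real.log m) ^ κ) :=
  main

end Pool.Agent.Results.MP_6af739_lc.QuarterPower
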