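import Pool.Agent.Work.MP_6af739_lc.HS.F

/-!
Newton and arc methods in the wide neighbourhood of the homogeneous self-dual embedding need order
`√m` iterations on a Gaussian perturbed linear program. The last clause shows that both end conditions
are reached by runs of the class.
-/

namespace Pool.Agent.Results.MP_6af739_lc.SelfDualLower

open MeasureTheory ProbabilityTheory Pool.Agent.Work.MP_6af739_lc.HS

theorem result (γ : ℝ) (hγ : 0 < γ) (hγ1 : γ ≤ 1) (m n : ℕ) (hn : 2 ≤ n) (hnm : 4 * n ≤ m)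
    (hm : 160000 ≤ γ ^ 2 * m) :
    ∃ (A₀ : Matrix (Fin m) (Fin n) ℝ) (b₀ : Fin m → ℝ) (c₀ : Fin n → ℝ),
      ∑ i, ∑ j, A₀ i j ^ 2 + ∑ i, b₀ i ^ 2 + ∑ j, c₀ j ^ 2 ≤ 1 ∧
      ∀ σ : ℝ, 0 ≤ σ → σ ≤ 1 / (m : ℝ) ^ 7 →
      ∃ E : Set (Option (Fin m) × Option (Fin n) → ℝ), MeasurableSet E ∧
        9 / 10 ≤ (Measure.pi fun _ => gaussianReal 0 1).real E ∧ ∀ G ∈ E,
        ∀ (A : Matrix (Fin m) (Fin n) ℝ) (b : Fin m → ℝ) (c : Fin n → ℝ),
          (∀ i j, A i j = A₀ i j + σ * G (some i, some j)) →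
          (∀ i, b i = b₀ i + σ * G (some i, none)) → (∀ j, c j = c₀ j + σ * G (none, some j)) →
          ∀ p : ℕ, (∀ (T : ℕ) (z : ℕ → Pt m n), Run A b c γ p T z →
            mu A b c (z T) ≤ 1 / 100000 ∨ Solved A b c (z T) → γ * √m / 2400 ≤ (p + 2) * T + 1) ∧
          (γ ≤ 3 / 4 →
            (∃ (T : ℕ) (z : ℕ → Pt m n), Run A b c γ p T z ∧ mu A b c (z T) ≤ 1 / 100000 ∧
              (T : ℝ) ≤ 50 * √m) ∧
            ∃ (T : ℕ) (z : ℕ → Pt m n), Run A b c γ p T z ∧ Solved A b c (z T)) :=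
  main γ hγ hγ1 m n hn hnm hm

end Pool.Agent.Results.MP_6af739_lc.SelfDualLower
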