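import Pool.Agent.Work.MP_6af739_lc.LB.Main

/-!
Primal-dual methods made of Newton steps in the wide neighbourhood and of curves of degree `p`
need order `√m / p` iterations on a Gaussian perturbed linear program before the duality gap drops
by a constant factor or a monotone guess of the tight rows is correct.
-/

namespace Pool.Agent.Results.MP_6af739_lc.SqrtLower

open MeasureTheory ProbabilityTheory Pool.Agent.Work.MP_6af739_lc.LB

theorem result (γ : ℝ) (hγ : 0 < γ) (hγ1 : γ ≤ 1) (m n : ℕ) (hn : 2 ≤ n) (hnm : 4 * n ≤ m)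
    (hm : 40000 ≤ γ ^ 3 * m) (g : ℝ) (hg : g = 1 / (6 * m)) :
    ∃ (A₀ : Matrix (Fin m) (Fin n) ℝ) (b₀ : Fin m → ℝ) (c₀ : Fin n → ℝ),
      ∑ i, ∑ j, A₀ i j ^ 2 + ∑ i, b₀ i ^ 2 + ∑ j, c₀ j ^ 2 ≤ 1 ∧
      ∀ σ : ℝ, 0 ≤ σ → σ ≤ 1 / (m : ℝ) ^ 5 →
      ∃ E : Set (Option (Fin m) × Option (Fin n) → ℝ), MeasurableSet E ∧
        9 / 10 ≤ (Measure.pi fun _ => gaussianReal 0 1).real E ∧ ∀ G ∈ E,
        ∀ (A : Matrix (Fin m) (Fin n) ℝ) (b : Fin m → ℝ) (c : Fin n → ℝ),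
          (∀ i j, A i j = A₀ i j + σ * G (some i, some j)) →
          (∀ i, b i = b₀ i + σ * G (some i, none)) → (∀ j, c j = c₀ j + σ * G (none, some j)) →
          (∃ (T : ℕ) (x : ℕ → Fin n → ℝ) (y : ℕ → Fin m → ℝ), Run γ 0 A b c T 1 1 x y ∧
            (∀ l ≤ T, Bal γ A b (x l) (y l)) ∧ gap A b (x 0) (y 0) = 15 * g ∧
            gap A b (x T) (y T) ≤ g) ∧
          ∀ (p T : ℕ) (α β : ℕ → ℝ) (x : ℕ → Fin n → ℝ) (y : ℕ → Fin m → ℝ),
            Run γ p A b c T α β x y → 10 * g ≤ gap A b (x 0) (y 0) →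
            (gap A b (x T) (y T) ≤ g ∨ ∃ B, Mono A b (x T) (y T) B ∧ Opt A b c B) →
            ((∀ l ≤ T, Bal γ A b (x l) (y l)) ∨
              (α = β ∧ Bal γ A b (x 0) (y 0) ∧ gap A b (x 0) (y 0) ≤ 20 * g)) →
            √(γ ^ 3 * m) / 400 ≤ (p + 2) * T :=
  main γ hγ hγ1 m n hn hnm hm g hg

end Pool.Agent.Results.MP_6af739_lc.SqrtLower
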